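import Pool.Agent.Helper71.UN.StD

/-!
# Project UN, module DIR: directions of the hexagon network
-/

set_option autoImplicit false

open Set Filter Topology Matrix
open scoped ContDiff ComplexConjugate

noncomputable section

namespace Pool.Agent.Helper64.UN

open Pool.Agent.Helper71.UN

theorem dt_mul (p q v : ℂ) : dt (p * v) (q * v) = Complex.normSq v * dt p q := by
  unfold dt
  simp only [Complex.mul_im, Complex.mul_re, Complex.conj_re, Complex.conj_im, map_mul,
    Complex.normSq_apply]
  ring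

theorem re_mul (p v : ℂ) : (p * v * conj v).re = Complex.normSq v * p.re := by
  simp only [Complex.mul_im, Complex.mul_re, Complex.conj_re, Complex.conj_im,
    Complex.normSq_apply]
  ring

theorem dt_eq (p q : ℂ) : dt p q = q.im * p.re - q.re * p.im := by
  unfold dt
  simp only [Complex.mul_im, Complex.conj_re, Complex.conj_im]
  ring

theorem hDIR : StDIR := by
  intro Γ η k l v₀ a a' τ h s θ hη hC
  have hn : 0 < Complex.normSq v₀ := Complex.normSq_pos.2 hC.nz
  have hv : 0 < ‖v₀‖ := norm_pos_iff.2 hC.nz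
  obtain ⟨ξ, hξ⟩ : ∃ ξ : ℂ, a = (1 + om + ξ) * v₀ :=
    ⟨(a - (v₀ + om * v₀)) / v₀, by
      have h0 := hC.nz
      field_simp
      ring⟩
  obtain ⟨ξ', hξ'⟩ : ∃ ξ : ℂ, a' = (1 + om + ξ) * v₀ :=
    ⟨(a' - (v₀ + om * v₀)) / v₀, by
      have h0 := hC.nz
      field_simp
      ring⟩
  have hb : ‖ξ‖ ≤ 1 / 100 := by
    have h1 := hC.ha
    have h2 : a - (v₀ + om * v₀) = ξ * v₀ := by rw [hξ]; ring
    rw [h2, norm_mul] at h1
    exact (le_of_mul_le_mul_right h1 hv).trans hη
  have hb' : ‖ξ'‖ ≤ 1 / 100 := by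
    have h1 := hC.ha'
    have h2 : a' - (v₀ + om * v₀) = ξ' * v₀ := by rw [hξ']; ring
    rw [h2, norm_mul] at h1
    exact (le_of_mul_le_mul_right h1 hv).trans hη
  obtain ⟨hx1, hx2⟩ := abs_le.1 ((Complex.abs_re_le_norm ξ).trans hb)
  obtain ⟨hy1, hy2⟩ := abs_le.1 ((Complex.abs_im_le_norm ξ).trans hb)
  obtain ⟨hx1', hx2'⟩ := abs_le.1 ((Complex.abs_re_le_norm ξ').trans hb')
  obtain ⟨hy1', hy2'⟩ := abs_le.1 ((Complex.abs_im_le_norm ξ').trans hb')
  have D1 : 0 < dt (1 + ξ) (ξ' - ξ) := by
    have h1 := hC.h1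
    have h2 : a - om * v₀ = (1 + ξ) * v₀ := by rw [hξ]; ring
    have h3 : a' - a = (ξ' - ξ) * v₀ := by rw [hξ, hξ']; ring
    rw [h2, h3, dt_mul] at h1
    exact (mul_pos_iff_of_pos_left hn).1 h1
  have D2 : 0 < dt (ξ' - ξ) (om + ξ) := by
    have h1 := hC.h2
    have h2 : a - v₀ = (om + ξ) * v₀ := by rw [hξ]; ring
    have h3 : a' - a = (ξ' - ξ) * v₀ := by rw [hξ, hξ']; ring
    rw [h2, h3, dt_mul] at h1
    exact (mul_pos_iff_of_pos_left hn).1 h1
  have hτ : τ = (om + s * ((1 + ξ) + θ * (ξ' - ξ))) * v₀ := by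
    rw [hC.hτ, hξ, hξ']
    ring
  have e0 : d6 v₀ a a' τ h 0 = ((1 + ξ) - s * ((1 + ξ) + θ * (ξ' - ξ))) * v₀ := by
    have h1 : d6 v₀ a a' τ h 0 = -(-a + τ) := rfl
    rw [h1, hτ, hξ]
    ring
  have e1 : d6 v₀ a a' τ h 1 = (1 + ξ) * v₀ := by
    have h1 : d6 v₀ a a' τ h 1 = -(om * v₀ + -a) := rfl
    rw [h1, hξ]
    ring
  have e2 : d6 v₀ a a' τ h 2 = (1 + ξ') * v₀ := by
    have h1 : d6 v₀ a a' τ h 2 = -(om * v₀ + -a') := rfl
    rw [h1, hξ']
    ring
  have e3 : d6 v₀ a a' τ h 3 = ((1 + ξ') - s * ((1 + ξ) + θ * (ξ' - ξ))) * v₀ := by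
    have h1 : d6 v₀ a a' τ h 3 = -(-a' + τ) := rfl
    rw [h1, hτ, hξ']
    ring
  have e4 : d6 v₀ a a' τ h 4 = (om + ξ') * v₀ := by
    have h1 : d6 v₀ a a' τ h 4 = -(v₀ + -a') := rfl
    rw [h1, hξ']
    ring
  have e5 : d6 v₀ a a' τ h 5 = (om + ξ) * v₀ := by
    have h1 : d6 v₀ a a' τ h 5 = -(v₀ + -a) := rfl
    rw [h1, hξ]
    ring
  have e6 : d6 v₀ a a' τ h 6 = (-(1 + om)) * v₀ := by
    have h1 : d6 v₀ a a' τ h 6 = -(v₀ + om * v₀) := rfl
    rw [h1]
    ring
  have s0 := hC.s0
  have s1 := hC.s1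
  have t0 := hC.θ0
  have t1 := hC.θ1
  rw [dt_eq] at D1 D2
  have omre : om.re = -1 / 2 := rfl
  have omim : om.im = Real.sqrt 3 / 2 := rfl
  have hq : (17 : ℝ) / 10 < Real.sqrt 3 := by
    rw [Real.lt_sqrt (by norm_num)]
    norm_num
  simp only [Complex.add_re, Complex.add_im, Complex.sub_re, Complex.sub_im, Complex.one_re,
    Complex.one_im, omre, omim] at D1 D2
  have hst : 0 < s * θ := mul_pos s0 t0
  have hst1 : s * θ < 1 / 2 := by nlinarith
  have hst2 : 0 < s * (1 - θ) := mul_pos s0 (by linarith)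
  constructor
  · constructor
    · intro i hi
      interval_cases i
      · show 0 < (d6 v₀ a a' τ h 0 * conj v₀).re
        rw [e0, re_mul]
        refine mul_pos hn ?_
        simp only [Complex.add_re, Complex.sub_re, Complex.one_re, Complex.mul_re,
          Complex.ofReal_re, Complex.ofReal_im, zero_mul, sub_zero]
        nlinarith
      · show 0 < (d6 v₀ a a' τ h 1 * conj v₀).re
        rw [e1, re_mul]
        refine mul_pos hn ?_
        simp only [Complex.add_re, Complex.one_re]
        linarith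
      · show 0 < (d6 v₀ a a' τ h 2 * conj v₀).re
        rw [e2, re_mul]
        refine mul_pos hn ?_
        simp only [Complex.add_re, Complex.one_re]
        linarith
      · show 0 < (d6 v₀ a a' τ h 3 * conj v₀).re
        rw [e3, re_mul]
        refine mul_pos hn ?_
        simp only [Complex.add_re, Complex.sub_re, Complex.one_re, Complex.mul_re,
          Complex.ofReal_re, Complex.ofReal_im, zero_mul, sub_zero]
        nlinarith
    · intro i hi
      have hi' : i < 3 := by omega
      interval_cases i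
      · show 0 < dt (d6 v₀ a a' τ h 0) (d6 v₀ a a' τ h 1)
        rw [e0, e1, dt_mul]
        refine mul_pos hn ?_
        rw [dt_eq]
        simp only [Complex.add_re, Complex.add_im, Complex.sub_re, Complex.sub_im,
          Complex.one_re, Complex.one_im, Complex.mul_re, Complex.mul_im,
          Complex.ofReal_re, Complex.ofReal_im, zero_mul, sub_zero, add_zero]
        have := mul_pos hst D1
        linarith
      · show 0 < dt (d6 v₀ a a' τ h 1) (d6 v₀ a a' τ h 2)
        rw [e1, e2, dt_mul]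
        refine mul_pos hn ?_
        rw [dt_eq]
        simp only [Complex.add_re, Complex.add_im, Complex.one_re, Complex.one_im]
        linarith
      · show 0 < dt (d6 v₀ a a' τ h 2) (d6 v₀ a a' τ h 3)
        rw [e2, e3, dt_mul]
        refine mul_pos hn ?_
        rw [dt_eq]
        simp only [Complex.add_re, Complex.add_im, Complex.sub_re, Complex.sub_im,
          Complex.one_re, Complex.one_im, Complex.mul_re, Complex.mul_im,
          Complex.ofReal_re, Complex.ofReal_im, zero_mul, sub_zero, add_zero]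
        have := mul_pos hst2 D1
        linarith
  · constructor
    · intro i hi
      interval_cases i
      · show (d6 v₀ a a' τ h 6 * conj v₀).re < 0
        rw [e6, re_mul]
        refine mul_neg_of_pos_of_neg hn ?_
        simp only [Complex.neg_re, Complex.add_re, Complex.one_re, omre]
        norm_num
      · show (d6 v₀ a a' τ h 5 * conj v₀).re < 0
        rw [e5, re_mul]
        refine mul_neg_of_pos_of_neg hn ?_
        simp only [Complex.add_re, omre]
        linarith
      · show (d6 v₀ a a' τ h 4 * conj v₀).re < 0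
        rw [e4, re_mul]
        refine mul_neg_of_pos_of_neg hn ?_
        simp only [Complex.add_re, omre]
        linarith
    · intro i hi
      have hi' : i < 2 := by omega
      interval_cases i
      · show 0 < dt (d6 v₀ a a' τ h 5) (d6 v₀ a a' τ h 6)
        rw [e5, e6, dt_mul]
        refine mul_pos hn ?_
        rw [dt_eq]
        simp only [Complex.neg_re, Complex.neg_im, Complex.add_re, Complex.add_im,
          Complex.one_re, Complex.one_im, omre, omim]
        nlinarith
      · show 0 < dt (d6 v₀ a a' τ h 4) (d6 v₀ a a' τ h 5)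
        rw [e4, e5, dt_mul]
        refine mul_pos hn ?_
        rw [dt_eq]
        simp only [Complex.add_re, Complex.add_im, omre, omim]
        linarith

end Pool.Agent.Helper64.UN
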